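import Mathlib

set_option autoImplicit false

/-!
# The cyclic groups whose largest `t`-independent set has size one, `t` odd

Write `t = 2 h - 1`. Let `{a, b}` be `t`-independent in `ℤ/n`, with `n < 2 h ^ 2 + h`, and let `L` be
the lattice of the `(x, y)` with `x a + y b = 0`. By the pigeonhole principle `L` contains vectors
`u = (h + s, s - h)` and `v = (h + r, h - r)` with `|r|, |s| < h`, and `n` divides all determinants
of pairs of vectors of `L`. Hence `n = 2 h ^ 2 - 2 r s`. If `h, r, s` are all odd then one of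
`u/2`, `v/2`, `(u-v)/2` is in `L`, a contradiction. So `n` is even, and `n = 2 mod 4` if `h` is odd.
-/

namespace Pool.Agent.Results.MP_c28122_co.OddT

/-- The finite subset `A` of the abelian group `G` is `t`-independent: the only integer
coefficients `l a`, `a ∈ A`, with `∑ |l a| ≤ t` and `∑ l a • a = 0` are zero. -/
def TIndependent {G : Type*} [AddCommGroup G] (t : ℕ) (A : Finset G) : Prop :=
  ∀ l : G → ℤ, ∑ a ∈ A, |l a| ≤ (t : ℤ) → ∑ a ∈ A, l a • a = 0 → ∀ a ∈ A, l a = 0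

/-- The largest size of a `t`-independent subset of `G`. -/
noncomputable def tau (G : Type*) [AddCommGroup G] (t : ℕ) : ℕ :=
  sSup {m | ∃ A : Finset G, TIndependent t A ∧ A.card = m}

theorem TIndependent.mono {G : Type*} [AddCommGroup G] {t : ℕ} {A B : Finset G}
    (hA : TIndependent t A) (hBA : B ⊆ A) : TIndependent t B := by
  classical
  intro l hl hs a ha
  set l' : G → ℤ := fun x => if x ∈ B then l x else 0 with hl'
  have h1 : ∑ a ∈ A, |l' a| = ∑ a ∈ B, |l a| := by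
    rw [← Finset.sum_subset hBA (f := fun a => |l' a|)]
    · apply Finset.sum_congr rfl
      intro x hx; simp [hl', hx]
    · intro x _ hx; simp [hl', hx]
  have h2 : ∑ a ∈ A, l' a • a = ∑ a ∈ B, l a • a := by
    rw [← Finset.sum_subset hBA (f := fun a => l' a • a)]
    · apply Finset.sum_congr rfl
      intro x hx; simp [hl', hx]
    · intro x _ hx; simp [hl', hx]
  have h3 := hA l' (by rw [h1]; exact hl) (by rw [h2]; exact hs) a (hBA ha)
  simpa [hl', ha] using h3

/-- Independence of the pair `a, b`. -/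
def Ind2 {G : Type*} [AddCommGroup G] (t : ℕ) (a b : G) : Prop :=
  ∀ x y : ℤ, |x| + |y| ≤ (t : ℤ) → x • a + y • b = 0 → x = 0 ∧ y = 0

theorem ind2_iff {G : Type*} [AddCommGroup G] [DecidableEq G] {t : ℕ} {a b : G} (hab : a ≠ b) :
    TIndependent t ({a, b} : Finset G) ↔ Ind2 t a b := by
  constructor
  · intro h x y hxy h0
    set l : G → ℤ := fun z => if z = a then x else y with hl
    have h1 : l a = x := by simp [hl]
    have h2 : l b = y := by simp [hl, Ne.symm hab]
    have h3 := h l (by rw [Finset.sum_pair hab, h1, h2]; exact hxy)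
      (by rw [Finset.sum_pair hab, h1, h2]; exact h0)
    refine ⟨?_, ?_⟩
    · have := h3 a (by simp); rwa [h1] at this
    · have := h3 b (by simp); rwa [h2] at this
  · intro h l hl h0 z hz
    rw [Finset.sum_pair hab] at hl h0
    obtain ⟨h1, h2⟩ := h _ _ hl h0
    simp only [Finset.mem_insert, Finset.mem_singleton] at hz
    rcases hz with rfl | rfl
    · exact h1
    · exact h2

/-- `tau = 1` iff there is an independent set of size one but none of size two. -/
theorem tau_eq_one {G : Type*} [AddCommGroup G] [Fintype G] (t : ℕ) :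
    tau G t = 1 ↔ (∃ A : Finset G, TIndependent t A ∧ A.card = 1) ∧
      ¬ ∃ A : Finset G, TIndependent t A ∧ A.card = 2 := by
  set S : Set ℕ := {m | ∃ A : Finset G, TIndependent t A ∧ A.card = m} with hS
  have hbdd : BddAbove S := by
    refine ⟨Fintype.card G, ?_⟩
    rintro m ⟨A, _, rfl⟩
    exact Finset.card_le_univ A
  have hne : S.Nonempty := ⟨0, ∅, by intro l _ _ a ha; simp at ha, rfl⟩
  have hdown : ∀ m ∈ S, ∀ k ≤ m, k ∈ S := by
    rintro m ⟨A, hA, rfl⟩ k hk
    obtain ⟨B, hBA, hB⟩ := Finset.exists_subset_card_eq hk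
    exact ⟨B, hA.mono hBA, hB⟩
  constructor
  · intro h
    have h1 : (1 : ℕ) ∈ S := by rw [← h]; exact Nat.sSup_mem hne hbdd
    refine ⟨h1, fun h2 => ?_⟩
    have : 2 ≤ sSup S := le_csSup hbdd h2
    have h3 : sSup S = 1 := h
    omega
  · rintro ⟨h1, h2⟩
    apply le_antisymm
    · by_contra hlt
      push Not at hlt
      exact h2 (hdown _ (Nat.sSup_mem hne hbdd) 2 hlt)
    · exact le_csSup hbdd h1

section pigeon

variable {G : Type*} [AddCommGroup G] [Finite G]

/-- The pigeonhole principle for a box of checkerboard points. -/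
theorem pigeon (Q h : ℕ) (a b : G) (hc : Nat.card G < Q * h) :
    ∃ x y : ℤ, ¬ (x = 0 ∧ y = 0) ∧ |x + y| ≤ 2 * h - 1 ∧ |x - y| ≤ Q - 1 ∧
      x • a + y • b = 0 := by
  have : Fintype G := Fintype.ofFinite G
  rw [Nat.card_eq_fintype_card] at hc
  obtain ⟨p, q, hpq, heq⟩ := Fintype.exists_ne_map_eq_of_card_lt
    (fun p : Fin Q × Fin h => (((p.2 : ℕ) + ((p.1 : ℕ) + 1) / 2 : ℕ) : ℤ) • a +
      (((p.2 : ℕ) : ℤ) - (((p.1 : ℕ) / 2 : ℕ) : ℤ)) • b) (by simpa using hc)
  obtain ⟨⟨Y, hY⟩, ⟨i, hi⟩⟩ := p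
  obtain ⟨⟨Y', hY'⟩, ⟨i', hi'⟩⟩ := q
  simp only at heq
  have hne : ¬ (Y = Y' ∧ i = i') := by
    rintro ⟨rfl, rfl⟩; exact hpq rfl
  refine ⟨((i + (Y + 1) / 2 : ℕ) : ℤ) - ((i' + (Y' + 1) / 2 : ℕ) : ℤ),
    ((i : ℤ) - ((Y / 2 : ℕ) : ℤ)) - ((i' : ℤ) - ((Y' / 2 : ℕ) : ℤ)), ?_, ?_, ?_, ?_⟩
  · rintro ⟨h1, h2⟩
    apply hne
    omega
  · rw [abs_le]; constructor <;> omega
  · rw [abs_le]; constructor <;> omega
  · rw [sub_smul, sub_smul]
    have : ((i + (Y + 1) / 2 : ℕ) : ℤ) • a - ((i' + (Y' + 1) / 2 : ℕ) : ℤ) • a +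
        (((i : ℤ) - ((Y / 2 : ℕ) : ℤ)) • b - ((i' : ℤ) - ((Y' / 2 : ℕ) : ℤ)) • b) =
        (((i + (Y + 1) / 2 : ℕ) : ℤ) • a + ((i : ℤ) - ((Y / 2 : ℕ) : ℤ)) • b) -
        (((i' + (Y' + 1) / 2 : ℕ) : ℤ) • a + ((i' : ℤ) - ((Y' / 2 : ℕ) : ℤ)) • b) := by abel
    rw [this, heq, sub_self]

/-- The packing bound. -/
theorem card_ge (h : ℕ) (hh : 1 ≤ h) (a b : G) (hI : Ind2 (2 * h - 1) a b) :
    2 * h ^ 2 ≤ Nat.card G := by
  by_contra hlt
  push Not at hlt
  obtain ⟨x, y, hne, h1, h2, h3⟩ := pigeon (2 * h) h a b (by rw [pow_two] at hlt; linarith)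
  apply hne
  apply hI x y _ h3
  rw [abs_le] at h1 h2
  push_cast at h1 h2 ⊢
  rcases abs_cases x with ⟨e1, _⟩ | ⟨e1, _⟩ <;> rcases abs_cases y with ⟨e2, _⟩ | ⟨e2, _⟩ <;>
    rw [e1, e2] <;> omega

end pigeon

/-- `n` divides the determinants of pairs of relations. -/
theorem det_dvd (n : ℕ) (a b : ZMod n)
    (hgen : AddSubgroup.closure ({a, b} : Set (ZMod n)) = ⊤) (x1 y1 x2 y2 : ℤ)
    (h1 : x1 • a + y1 • b = 0) (h2 : x2 • a + y2 • b = 0) : (n : ℤ) ∣ x1 * y2 - x2 * y1 := by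
  set D := x1 * y2 - x2 * y1 with hD
  have ha : D • a = 0 := by
    have : D • a = y2 • (x1 • a + y1 • b) - y1 • (x2 • a + y2 • b) := by
      simp only [zsmul_eq_mul, hD]; push_cast; ring
    rw [this, h1, h2]; simp
  have hb : D • b = 0 := by
    have : D • b = x1 • (x2 • a + y2 • b) - x2 • (x1 • a + y1 • b) := by
      simp only [zsmul_eq_mul, hD]; push_cast; ring
    rw [this, h1, h2]; simp
  have hall : ∀ x ∈ AddSubgroup.closure ({a, b} : Set (ZMod n)), D • x = 0 := by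
    intro x hx
    induction hx using AddSubgroup.closure_induction with
    | mem x hx =>
      rcases hx with rfl | hx
      · exact ha
      · rw [Set.mem_singleton_iff] at hx; rw [hx]; exact hb
    | zero => simp
    | add x y _ _ hx hy => rw [smul_add, hx, hy, add_zero]
    | neg x _ hx => rw [smul_neg, hx, neg_zero]
  have h1' := hall 1 (by rw [hgen]; trivial)
  rw [← ZMod.intCast_zmod_eq_zero_iff_dvd] 
  simpa using h1'

/-- The elements of order two of a cyclic group are equal. -/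
theorem two_torsion (n : ℕ) [NeZero n] (x y : ZMod n) (hx : x + x = 0) (hy : y + y = 0)
    (hx0 : x ≠ 0) (hy0 : y ≠ 0) : x = y := by
  have key : ∀ z : ZMod n, z + z = 0 → z ≠ 0 → 2 * z.val = n := by
    intro z hz hz0
    have h1 : ((2 * z.val : ℕ) : ZMod n) = 0 := by
      push_cast
      rw [ZMod.natCast_zmod_val, two_mul, hz]
    rw [ZMod.natCast_eq_zero_iff] at h1
    have h2 : z.val < n := ZMod.val_lt z
    have h3 : 0 < z.val := by
      rw [Nat.pos_iff_ne_zero, Ne, ZMod.val_eq_zero]; exact hz0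
    obtain ⟨c, hc⟩ := h1
    have h4 : c = 1 := by
      have : c < 2 := by nlinarith
      have : 0 < c := by
        rcases Nat.eq_zero_or_pos c with h | h
        · subst h; omega
        · exact h
      omega
    subst h4; omega
  apply ZMod.val_injective n
  have h1 := key x hx hx0
  have h2 := key y hy hy0
  omega

/-- The structure of an independent pair, when `n < 2 h ^ 2 + h`. -/
theorem structure_pair (n h : ℕ) (hh : 1 ≤ h) [NeZero n] (a b : ZMod n)
    (hI : Ind2 (2 * h - 1) a b) (hn : n < 2 * h ^ 2 + h) :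
    ∃ r s : ℤ, (n : ℤ) = 2 * h ^ 2 - 2 * r * s ∧ ¬ (Odd (h : ℤ) ∧ Odd r ∧ Odd s) := by
  -- the pair generates
  have hgen : AddSubgroup.closure ({a, b} : Set (ZMod n)) = ⊤ := by
    set H := AddSubgroup.closure ({a, b} : Set (ZMod n)) with hH
    have haH : a ∈ H := AddSubgroup.subset_closure (by simp)
    have hbH : b ∈ H := AddSubgroup.subset_closure (by simp)
    have hI' : Ind2 (2 * h - 1) (⟨a, haH⟩ : H) ⟨b, hbH⟩ := by
      intro x y hxy h0
      apply hI x y hxy
      have := congrArg (Subtype.val) h0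
      simpa using this
    have h1 := card_ge h hh _ _ hI'
    have h2 : Nat.card H ∣ n := by
      have := AddSubgroup.card_addSubgroup_dvd_card H
      rwa [Nat.card_zmod] at this
    apply AddSubgroup.eq_top_of_card_eq
    rw [Nat.card_zmod]
    obtain ⟨c, hc⟩ := h2
    have hn0 : 0 < n := Nat.pos_of_ne_zero (NeZero.ne n)
    have hc1 : c = 1 := by
      have hc0 : 0 < c := by
        rcases Nat.eq_zero_or_pos c with h' | h'
        · subst h'; omega
        · exact h'
      have hc2 : c < 2 := by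
        by_contra hge
        push Not at hge
        have : 2 * (2 * h ^ 2) ≤ n := by
          rw [hc]
          calc 2 * (2 * h ^ 2) ≤ c * Nat.card H := Nat.mul_le_mul hge h1
            _ = _ := mul_comm _ _
        nlinarith
      omega
    rw [hc1, mul_one] at hc
    exact hc.symm
  have hn2 : 2 * h ^ 2 ≤ n := by
    have := card_ge h hh a b hI
    rwa [Nat.card_zmod] at this
  -- the first vector
  obtain ⟨x1, y1, hne1, h11, h12, h13⟩ := pigeon (2 * h + 1) h a b
    (by rw [Nat.card_zmod]; nlinarith)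
  obtain ⟨x2, y2, hne2, h21, h22, h23⟩ := pigeon (2 * h + 1) h a (-b)
    (by rw [Nat.card_zmod]; nlinarith)
  have hc : (((2 * h - 1 : ℕ) : ℤ)) = 2 * h - 1 := by omega
  have k1 : |x1 - y1| = 2 * h := by
    by_contra hlt
    apply hne1
    apply hI x1 y1 _ h13
    rw [hc]
    push_cast at h12
    have h12' : |x1 - y1| ≤ 2 * h - 1 := by omega
    rw [abs_le] at h11 h12'
    rcases abs_cases x1 with ⟨e1, _⟩ | ⟨e1, _⟩ <;> rcases abs_cases y1 with ⟨e2, _⟩ | ⟨e2, _⟩ <;>
      rw [e1, e2] <;> omega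
  have k2 : |x2 - y2| = 2 * h := by
    by_contra hlt
    apply hne2
    have h23' : x2 • a + (-y2) • b = 0 := by
      rw [neg_smul, ← smul_neg]; exact h23
    have := hI x2 (-y2) ?_ h23'
    · exact ⟨this.1, by omega⟩
    rw [hc, abs_neg]
    push_cast at h22
    have h22' : |x2 - y2| ≤ 2 * h - 1 := by omega
    rw [abs_le] at h21 h22'
    rcases abs_cases x2 with ⟨e1, _⟩ | ⟨e1, _⟩ <;> rcases abs_cases y2 with ⟨e2, _⟩ | ⟨e2, _⟩ <;>
      rw [e1, e2] <;> omega
  -- normalized vectors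
  obtain ⟨s, hs1, hs2, hu⟩ : ∃ s : ℤ, -(h : ℤ) < s ∧ s < h ∧ (h + s) • a + (s - h) • b = 0 := by
    rw [abs_le] at h11
    rcases abs_eq (by positivity : (0 : ℤ) ≤ 2 * h) |>.mp k1 with h' | h'
    · refine ⟨x1 - h, by omega, by omega, ?_⟩
      have e1 : (h : ℤ) + (x1 - h) = x1 := by ring
      have e2 : x1 - (h : ℤ) - h = y1 := by omega
      rw [e1, e2]; exact h13
    · refine ⟨-x1 - h, by omega, by omega, ?_⟩
      have e1 : (h : ℤ) + (-x1 - h) = -x1 := by ring
      have e2 : -x1 - (h : ℤ) - h = -y1 := by omega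
      rw [e1, e2, neg_smul, neg_smul, ← neg_add, h13, neg_zero]
  obtain ⟨r, hr1, hr2, hv⟩ : ∃ r : ℤ, -(h : ℤ) < r ∧ r < h ∧ (h + r) • a + (h - r) • b = 0 := by
    have h23' : x2 • a + (-y2) • b = 0 := by
      rw [neg_smul, ← smul_neg]; exact h23
    rw [abs_le] at h21
    rcases abs_eq (by positivity : (0 : ℤ) ≤ 2 * h) |>.mp k2 with h' | h'
    · refine ⟨x2 - h, by omega, by omega, ?_⟩
      have e1 : (h : ℤ) + (x2 - h) = x2 := by ring
      have e2 : (h : ℤ) - (x2 - h) = -y2 := by omega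
      rw [e1, e2]; exact h23'
    · refine ⟨-x2 - h, by omega, by omega, ?_⟩
      have e1 : (h : ℤ) + (-x2 - h) = -x2 := by ring
      have e2 : (h : ℤ) - (-x2 - h) = -(-y2) := by omega
      rw [e1, e2, neg_smul, neg_smul, ← neg_add, h23', neg_zero]
  -- the determinant
  have hdet := det_dvd n a b hgen _ _ _ _ hu hv
  have hD : (h + s) * (h - r) - (h + r) * (s - h) = 2 * (h : ℤ) ^ 2 - 2 * r * s := by ring
  rw [hD] at hdet
  have hrs : |r * s| < (h : ℤ) ^ 2 := by
    rw [abs_mul, pow_two]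
    have i1 : |r| < h := abs_lt.mpr ⟨hr1, hr2⟩
    have i2 : |s| < h := abs_lt.mpr ⟨hs1, hs2⟩
    exact mul_lt_mul'' i1 i2 (abs_nonneg _) (abs_nonneg _)
  rw [abs_lt] at hrs
  have hn2' : 2 * (h : ℤ) ^ 2 ≤ n := by exact_mod_cast hn2
  have hnD : (n : ℤ) = 2 * h ^ 2 - 2 * r * s := by
    obtain ⟨c, hc'⟩ := hdet
    have hpos : (0 : ℤ) < 2 * (h : ℤ) ^ 2 - 2 * r * s := by nlinarith
    have hlt : 2 * (h : ℤ) ^ 2 - 2 * r * s < 2 * n := by nlinarith
    have hn0 : (0 : ℤ) < n := by exact_mod_cast Nat.pos_of_ne_zero (NeZero.ne n)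
    have hc1 : c = 1 := by
      rw [hc'] at hpos hlt
      have : 0 < c := by
        by_contra hcn; push Not at hcn; nlinarith
      have : c < 2 := by nlinarith
      omega
    rw [hc', hc1, mul_one]
  refine ⟨r, s, hnD, ?_⟩
  rintro ⟨⟨h0, hh0⟩, ⟨r0, hr0⟩, ⟨s0, hs0⟩⟩
  have hn0 : (0 : ℤ) < n := by exact_mod_cast Nat.pos_of_ne_zero (NeZero.ne n)
  -- the halves
  set α : ZMod n := (h0 + s0 + 1) • a + (s0 - h0) • b with hα
  set β : ZMod n := (h0 + r0 + 1) • a + (h0 - r0) • b with hβ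
  have hα2 : α + α = 0 := by
    rw [← hu, hα, hh0, hs0]
    simp only [zsmul_eq_mul]; push_cast; ring
  have hβ2 : β + β = 0 := by
    rw [← hv, hβ, hh0, hr0]
    simp only [zsmul_eq_mul]; push_cast; ring
  have hDD : ∀ D : ℤ, 2 * D = n → ¬ (n : ℤ) ∣ D := by
    rintro D hD ⟨c, hc⟩
    rw [hc] at hD
    have h5 : (n : ℤ) * (2 * c - 1) = 0 := by linarith
    rcases mul_eq_zero.mp h5 with h6 | h6
    · omega
    · omega
  by_cases hα0 : α = 0
  · apply hDD _ _ (det_dvd n a b hgen _ _ _ _ hα0 hv)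
    rw [hnD, hh0, hr0, hs0]; ring
  by_cases hβ0 : β = 0
  · apply hDD _ _ (det_dvd n a b hgen _ _ _ _ hu hβ0)
    rw [hnD, hh0, hr0, hs0]; ring
  have hab : α = β := two_torsion n α β hα2 hβ2 hα0 hβ0
  have hw : (s0 - r0) • a + (s0 + r0 - 2 * h0) • b = 0 := by
    have : (s0 - r0) • a + (s0 + r0 - 2 * h0) • b = α - β := by
      rw [hα, hβ]; simp only [zsmul_eq_mul]; push_cast; ring
    rw [this, hab, sub_self]
  apply hDD _ _ (det_dvd n a b hgen _ _ _ _ hw hv)
  rw [hnD, hh0, hr0, hs0]; ring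

theorem ind2_of_int (n : ℕ) (t : ℕ) (a b : ℤ)
    (h : ∀ x y k : ℤ, |x| + |y| ≤ (t : ℤ) → x * a + y * b = n * k → x = 0 ∧ y = 0) :
    Ind2 t (a : ZMod n) (b : ZMod n) := by
  intro x y hxy h0
  have : ((x * a + y * b : ℤ) : ZMod n) = 0 := by
    push_cast
    simpa [zsmul_eq_mul] using h0
  rw [ZMod.intCast_zmod_eq_zero_iff_dvd] at this
  obtain ⟨k, hk⟩ := this
  exact h x y k hxy hk

/-- The pair `h, h + 1`. -/
theorem pair_one (n h : ℕ) (hh : 2 ≤ h) (hn : 2 * h ^ 2 + h ≤ n) :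
    Ind2 (2 * h - 1) (((h : ℤ)) : ZMod n) (((h + 1 : ℤ)) : ZMod n) := by
  apply ind2_of_int
  intro x y k hxy hk
  have hc : (((2 * h - 1 : ℕ) : ℤ)) = 2 * h - 1 := by omega
  rw [hc] at hxy
  have hn' : 2 * (h : ℤ) ^ 2 + h ≤ n := by exact_mod_cast hn
  have hh' : (2 : ℤ) ≤ h := by exact_mod_cast hh
  have hb : |x * h + y * (h + 1)| ≤ (2 * h - 1) * (h + 1) := by
    calc |x * h + y * (h + 1)| ≤ |x * h| + |y * (h + 1)| := abs_add_le _ _
      _ = |x| * h + |y| * (h + 1) := by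
          rw [abs_mul, abs_mul, abs_of_nonneg (by positivity : (0 : ℤ) ≤ h),
            abs_of_nonneg (by positivity : (0 : ℤ) ≤ (h : ℤ) + 1)]
      _ ≤ (|x| + |y|) * (h + 1) := by nlinarith [abs_nonneg x]
      _ ≤ _ := by apply mul_le_mul_of_nonneg_right hxy; positivity
  rw [abs_le] at hb
  have hk0 : k = 0 := by
    have i1 : (n : ℤ) * k < n := by nlinarith
    have i2 : -(n : ℤ) < n * k := by nlinarith
    have hn0 : (0 : ℤ) < n := by nlinarith
    have : k < 1 := by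
      by_contra hge; push Not at hge; nlinarith
    have : -1 < k := by
      by_contra hge; push Not at hge; nlinarith
    omega
  subst hk0
  rw [mul_zero] at hk
  have h1 : (x + y) * h = -y := by linarith
  have h2 : |y| ≤ 2 * h - 1 := by linarith [abs_nonneg x]
  rw [abs_le] at h2
  have h3 : x + y < 2 := by
    by_contra hge; push Not at hge; nlinarith
  have h4 : -2 < x + y := by
    by_contra hge; push Not at hge; nlinarith
  have h5 : x + y = 0 ∨ x + y = 1 ∨ x + y = -1 := by omega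
  rcases h5 with h5 | h5 | h5
  · rw [h5] at h1; omega
  · rw [h5] at h1
    have e1 : y = -h := by linarith
    have e2 : x = h + 1 := by linarith
    rw [e1, e2, abs_neg, abs_of_nonneg (by positivity), abs_of_nonneg (by positivity)] at hxy
    omega
  · rw [h5] at h1
    have e1 : y = h := by linarith
    have e2 : x = -(h + 1) := by linarith
    rw [e1, e2, abs_neg, abs_of_nonneg (by positivity), abs_of_nonneg (by positivity)] at hxy
    omega

/-- The pair `h - 1, h + 1`, `h` and `n` even (Miller). -/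
theorem pair_two (n h : ℕ) (hh : 2 ≤ h) (hhe : Even h) (hne : Even n) (hn : 2 * h ^ 2 ≤ n) :
    Ind2 (2 * h - 1) (((h - 1 : ℤ)) : ZMod n) (((h + 1 : ℤ)) : ZMod n) := by
  apply ind2_of_int
  intro x y k hxy hk
  have hc : (((2 * h - 1 : ℕ) : ℤ)) = 2 * h - 1 := by omega
  rw [hc] at hxy
  have hn' : 2 * (h : ℤ) ^ 2 ≤ n := by exact_mod_cast hn
  have hh' : (2 : ℤ) ≤ h := by exact_mod_cast hh
  have hX : |x + y| ≤ 2 * h - 1 := (abs_add_le x y).trans hxy
  have hY : |x - y| ≤ 2 * h - 1 := (abs_sub x y).trans hxy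
  rw [abs_le] at hX hY
  set X := x + y with hXd
  set Y := x - y with hYd
  have hpar : ∃ z : ℤ, X = Y + 2 * z := ⟨y, by rw [hXd, hYd]; ring⟩
  have hk' : X * h - Y = n * k := by rw [← hk, hXd, hYd]; ring
  obtain ⟨h0, hh0⟩ := hhe
  obtain ⟨n0, hn0⟩ := hne
  obtain ⟨z, hz⟩ := hpar
  have hh0' : (h : ℤ) = 2 * h0 := by rw [hh0]; push_cast; ring
  have hn0' : (n : ℤ) = 2 * n0 := by rw [hn0]; push_cast; ring
  -- parity: `Y` is even, hence `X` is
  have hYe : ∃ w : ℤ, Y = 2 * w := ⟨X * h0 - n0 * k, by rw [hh0', hn0'] at hk'; linarith⟩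
  obtain ⟨w, hw⟩ := hYe
  have hXe : X = 2 * (w + z) := by rw [hz, hw]; ring
  have hX1 : X ≤ 2 * h - 2 := by omega
  have hX2 : -(2 * h - 2) ≤ X := by omega
  have hY1 : Y ≤ 2 * h - 2 := by omega
  have hY2 : -(2 * h - 2) ≤ Y := by omega
  have hk0 : k = 0 := by
    have i1 : (n : ℤ) * k < n := by nlinarith
    have i2 : -(n : ℤ) < n * k := by nlinarith
    have hn0 : (0 : ℤ) < n := by nlinarith
    have : k < 1 := by
      by_contra hge; push Not at hge; nlinarith
    have : -1 < k := by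
      by_contra hge; push Not at hge; nlinarith
    omega
  rw [hk0, mul_zero] at hk'
  have hX0 : X = 0 := by
    have : X < 2 := by
      by_contra hge; push Not at hge; nlinarith
    have : -2 < X := by
      by_contra hge; push Not at hge; nlinarith
    omega
  have hY0 : Y = 0 := by rw [hX0] at hk'; omega
  constructor <;> omega

/-- The pair `h - 2, h + 2`, `h` odd and `n = 2 mod 4` (Miller). -/
theorem pair_three (n h : ℕ) (hh : 2 ≤ h) (hho : Odd h) (hn4 : n % 4 = 2) (hn : 2 * h ^ 2 ≤ n) :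
    Ind2 (2 * h - 1) (((h - 2 : ℤ)) : ZMod n) (((h + 2 : ℤ)) : ZMod n) := by
  apply ind2_of_int
  intro x y k hxy hk
  have hc : (((2 * h - 1 : ℕ) : ℤ)) = 2 * h - 1 := by omega
  rw [hc] at hxy
  have hn' : 2 * (h : ℤ) ^ 2 ≤ n := by exact_mod_cast hn
  have hh3 : 3 ≤ h := by
    obtain ⟨c, hc⟩ := hho; omega
  have hh' : (3 : ℤ) ≤ h := by exact_mod_cast hh3
  have hX : |x + y| ≤ 2 * h - 1 := (abs_add_le x y).trans hxy
  have hY : |x - y| ≤ 2 * h - 1 := (abs_sub x y).trans hxy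
  rw [abs_le] at hX hY
  set X := x + y with hXd
  set Y := x - y with hYd
  have hpar : X = Y + 2 * y := by rw [hXd, hYd]; ring
  have hk' : X * h - 2 * Y = n * k := by rw [← hk, hXd, hYd]; ring
  obtain ⟨h0, hh0⟩ := hho
  have hh0' : (h : ℤ) = 2 * h0 + 1 := by rw [hh0]; push_cast; ring
  obtain ⟨n0, hn0⟩ : ∃ n0 : ℤ, (n : ℤ) = 4 * n0 + 2 := ⟨n / 4, by omega⟩
  -- `k` is small
  have hk2 : k = 0 ∨ k = 1 ∨ k = -1 := by
    have i1 : (n : ℤ) * k < 2 * n := by nlinarith
    have i2 : -(2 * n : ℤ) < n * k := by nlinarith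
    have hn0 : (0 : ℤ) < n := by nlinarith
    have : k < 2 := by
      by_contra hge; push Not at hge; nlinarith
    have : -2 < k := by
      by_contra hge; push Not at hge; nlinarith
    omega
  -- `X` is even
  have hXe : ∃ w : ℤ, X = 2 * w :=
    ⟨Y + (2 * n0 + 1) * k - X * h0, by rw [hh0', hn0] at hk'; linarith⟩
  obtain ⟨w, hw⟩ := hXe
  have hYe : Y = 2 * (w - y) := by omega
  have hYb1 : Y ≤ 2 * h - 2 := by omega
  have hYb2 : -(2 * h - 2) ≤ Y := by omega
  have hwb1 : w ≤ h - 1 := by omega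
  have hwb2 : -(h - 1) ≤ w := by omega
  have hkw : w * h - Y = (2 * n0 + 1) * k := by
    rw [hw, hn0] at hk'; linarith
  rcases hk2 with hk2 | hk2 | hk2
  · rw [hk2, mul_zero] at hkw
    have i1 : w < 2 := by
      by_contra hge; push Not at hge; nlinarith
    have i2 : -2 < w := by
      by_contra hge; push Not at hge; nlinarith
    have : w = 0 := by
      have : w = 0 ∨ w = 1 ∨ w = -1 := by omega
      rcases this with h' | h' | h'
      · exact h'
      · rw [h'] at hkw; omega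
      · rw [h'] at hkw; omega
    rw [this] at hkw hw
    constructor <;> omega
  · exfalso
    rw [hk2, mul_one] at hkw
    -- `w` is odd
    have hwo : ∃ c : ℤ, w = 2 * c + 1 := ⟨n0 + (w - y) - w * h0, by
      have : w * (2 * h0 + 1) - 2 * (w - y) = 2 * n0 + 1 := by
        rw [← hh0', ← hYe]; exact hkw
      linarith⟩
    obtain ⟨c, hc'⟩ := hwo
    have hwb : w ≤ h - 2 := by omega
    nlinarith
  · exfalso
    rw [hk2] at hkw
    have hwo : ∃ c : ℤ, w = 2 * c + 1 := ⟨-n0 - 1 + (w - y) - w * h0, by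
      have : w * (2 * h0 + 1) - 2 * (w - y) = (2 * n0 + 1) * -1 := by
        rw [← hh0', ← hYe]; exact hkw
      linarith⟩
    obtain ⟨c, hc'⟩ := hwo
    have hwb : -(h - 2) ≤ w := by omega
    nlinarith

/-- **The answer.** For odd `t ≥ 3` and `n ≥ 1`, with `b = (t ^ 2 + 2 t - 1) / 2`: the largest
`t`-independent subset of `ℤ/n` has size one exactly if `t + 1 ≤ n ≤ b`, or
`b + 2 ≤ n ≤ b + (t + 1) / 2` and `n` is odd (for `t = 3 mod 4`), `n` is not `2 mod 4`
(for `t = 1 mod 4`). -/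
theorem result (t n : ℕ) (ht : Odd t) (ht3 : 3 ≤ t) (hn : 0 < n) :
    tau (ZMod n) t = 1 ↔
      (t + 1 ≤ n ∧ n ≤ (t ^ 2 + 2 * t - 1) / 2) ∨
      ((t ^ 2 + 2 * t - 1) / 2 + 2 ≤ n ∧ n ≤ (t ^ 2 + 2 * t - 1) / 2 + (t + 1) / 2 ∧
        ((t % 4 = 3 ∧ n % 2 = 1) ∨ (t % 4 = 1 ∧ n % 4 ≠ 2))) := by
  have : NeZero n := ⟨by omega⟩
  obtain ⟨h', hh'⟩ := ht
  obtain ⟨h, hh⟩ : ∃ h, h = h' + 1 := ⟨_, rfl⟩
  have hth : t = 2 * h - 1 := by omega
  have hh2 : 2 ≤ h := by omega
  have hb : (t ^ 2 + 2 * t - 1) / 2 = 2 * h ^ 2 - 1 := by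
    have : t ^ 2 + 2 * t - 1 = 2 * (2 * h ^ 2 - 1) := by
      rw [hh', hh]
      have : (2 * h' + 1) ^ 2 + 2 * (2 * h' + 1) = 4 * h' ^ 2 + 8 * h' + 3 := by ring
      rw [this]
      have : 2 * (h' + 1) ^ 2 = 2 * h' ^ 2 + 4 * h' + 2 := by ring
      rw [this]; omega
    rw [this]; omega
  have ht1 : (t + 1) / 2 = h := by omega
  have hhsq : 8 ≤ 2 * h ^ 2 := by nlinarith
  rw [hb, ht1, tau_eq_one]
  -- sets of size one
  have hone : (∃ A : Finset (ZMod n), TIndependent t A ∧ A.card = 1) ↔ t + 1 ≤ n := by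
    constructor
    · rintro ⟨A, hA, hc⟩
      obtain ⟨a, rfl⟩ := Finset.card_eq_one.mp hc
      by_contra hlt
      push Not at hlt
      have := hA (fun _ => n) (by
        simp only [Finset.sum_singleton]
        rw [abs_of_nonneg (by positivity)]; omega) (by simp) a (by simp)
      omega
    · intro hle
      refine ⟨{1}, ?_, by simp⟩
      intro l hl h0 a ha
      simp only [Finset.mem_singleton] at ha
      subst ha
      simp only [Finset.sum_singleton, zsmul_eq_mul, mul_one] at hl h0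
      rw [ZMod.intCast_zmod_eq_zero_iff_dvd] at h0
      by_contra hne
      have := Int.le_of_dvd (abs_pos.mpr hne) ((dvd_abs _ _).mpr h0)
      omega
  -- sets of size two
  have htwo : (∃ A : Finset (ZMod n), TIndependent t A ∧ A.card = 2) ↔
      ∃ a b : ZMod n, Ind2 t a b := by
    constructor
    · rintro ⟨A, hA, hc⟩
      obtain ⟨a, b, hab, rfl⟩ := Finset.card_eq_two.mp hc
      exact ⟨a, b, (ind2_iff hab).mp hA⟩
    · rintro ⟨a, b, hI⟩
      have hab : a ≠ b := by
        rintro rfl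
        have := hI 1 (-1) (by norm_num; omega) (by simp)
        omega
      exact ⟨{a, b}, (ind2_iff hab).mpr hI, Finset.card_pair hab⟩
  rw [hone, htwo, hth]
  clear hone htwo
  constructor
  · rintro ⟨h1, h2⟩
    by_cases hle : n ≤ 2 * h ^ 2 - 1
    · left; exact ⟨h1, hle⟩
    right
    push Not at hle
    have hlt : n < 2 * h ^ 2 + h := by
      by_contra hge
      push Not at hge
      exact h2 ⟨_, _, pair_one n h hh2 hge⟩
    rcases Nat.even_or_odd h with he | ho
    · have hno : n % 2 = 1 := by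
        by_contra hcon
        have : Even n := Nat.even_iff.mpr (by omega)
        exact h2 ⟨_, _, pair_two n h hh2 he this (by omega)⟩
      refine ⟨?_, by omega, Or.inl ⟨?_, hno⟩⟩
      · omega
      · obtain ⟨c, hc⟩ := he; omega
    · have hno : n % 4 ≠ 2 := by
        intro hcon
        exact h2 ⟨_, _, pair_three n h hh2 ho hcon (by omega)⟩
      refine ⟨?_, by omega, Or.inr ⟨?_, hno⟩⟩
      · obtain ⟨c, hc⟩ := ho
        have : (2 * h ^ 2) % 4 = 2 := by
          rw [hc]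
          have : 2 * (2 * c + 1) ^ 2 = 4 * (2 * c ^ 2 + 2 * c) + 2 := by ring
          rw [this]; omega
        omega
      · obtain ⟨c, hc⟩ := ho; omega
  · rintro (⟨h1, h2⟩ | ⟨h1, h2, h3⟩)
    · refine ⟨h1, ?_⟩
      rintro ⟨a, b, hI⟩
      have := card_ge h (by omega) a b hI
      rw [Nat.card_zmod] at this
      omega
    · refine ⟨by have : h ≤ h ^ 2 := Nat.le_self_pow (by norm_num) h; omega, ?_⟩
      rintro ⟨a, b, hI⟩
      obtain ⟨r, s, hrs, hodd⟩ := structure_pair n h (by omega) a b hI (by omega)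
      rcases h3 with ⟨_, h5⟩ | ⟨h4, h5⟩
      · have : (n : ℤ) = 2 * ((h : ℤ) ^ 2 - r * s) := by rw [hrs]; ring
        omega
      · have hho : Odd (h : ℤ) := ⟨(h : ℤ) / 2, by omega⟩
        obtain ⟨c, hc⟩ := hho
        have hn4 : n % 4 = 0 := by
          have : (n : ℤ) = 2 * ((h : ℤ) ^ 2 - r * s) := by rw [hrs]; ring
          omega
        obtain ⟨n0, hn0⟩ : ∃ n0 : ℤ, (n : ℤ) = 4 * n0 := ⟨n / 4, by omega⟩
        have hrs2 : r * s = 2 * (2 * c ^ 2 + 2 * c - n0) + 1 := by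
          rw [hn0, hc] at hrs; linarith
        have hoddrs : Odd (r * s) := ⟨_, hrs2⟩
        rw [Int.odd_mul] at hoddrs
        exact hodd ⟨⟨c, hc⟩, hoddrs.1, hoddrs.2⟩

end Pool.Agent.Results.MP_c28122_co.OddT
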